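import Mathlib

/-!
# Betweenness-uniform graphs attain every rational number above one

A disjoint union `H` of complete bipartite graphs `K_{a_i,b_i}` on `n` vertices has a complement `G`
of diameter two, and the betweenness of a vertex `v` of `G` is
`∑_{i : v ∉ K_{a_i,b_i}} a_i b_i / (n - a_i - b_i)`.  For `q = r / s > 1` one takes
`s X² (r - s) + 1` copies of `K_{sX,sX}` and `s² X² - 2 r X` copies of `K_{1, s² X² - 1}`.
-/

set_option autoImplicit false

namespace Pool.Agent.Results.MP_8f6c4c_co.AllRationals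

open Finset

/-- The number of shortest paths between `s` and `t`. -/
noncomputable def sigma {V : Type} (G : SimpleGraph V) (s t : V) : ℕ :=
  Set.ncard {p : G.Walk s t | p.IsPath ∧ p.length = G.dist s t}

/-- The number of shortest paths between `s` and `t` which pass through `v`. -/
noncomputable def sigmaThrough {V : Type} (G : SimpleGraph V) (s t v : V) : ℕ :=
  Set.ncard {p : G.Walk s t | (p.IsPath ∧ p.length = G.dist s t) ∧ v ∈ p.support}

open Classical in
/-- The betweenness of `v`: the sum over all unordered pairs `{s, t}` of distinct vertices other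
than `v` of the proportion of shortest paths between `s` and `t` through `v` (the double sum counts
every unordered pair twice). -/
noncomputable def betweenness {V : Type} [Fintype V] (G : SimpleGraph V) (v : V) : ℝ :=
  (1 / 2) * ∑ s : V, ∑ t : V,
    if s ≠ t ∧ s ≠ v ∧ t ≠ v then (sigmaThrough G s t v : ℝ) / (sigma G s t : ℝ) else 0

/-- The set of all real numbers above one which are the betweenness of a betweenness-uniform
graph, that is of a finite connected simple graph whose vertices all have that betweenness. -/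
def attained : Set ℝ :=
  {α : ℝ | 1 < α ∧ ∃ (V : Type) (_ : Fintype V) (G : SimpleGraph V),
    G.Connected ∧ ∀ v : V, betweenness G v = α}

/-- The betweenness is a rational number. -/
lemma rational {V : Type} [Fintype V] (G : SimpleGraph V) (v : V) :
    ∃ q : ℚ, (q : ℝ) = betweenness G v := by
  classical
  refine ⟨(1 / 2) * ∑ s : V, ∑ t : V,
    if s ≠ t ∧ s ≠ v ∧ t ≠ v then (sigmaThrough G s t v : ℚ) / (sigma G s t : ℚ) else 0, ?_⟩
  unfold betweenness
  push_cast
  congr 1
  refine Finset.sum_congr rfl fun s _ => Finset.sum_congr rfl fun t _ => ?_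
  split_ifs <;> simp

section general

variable {V ι : Type} (comp : V → ι) (side : V → Bool)

/-- The complement of the disjoint union of complete bipartite graphs. -/
def Gr : SimpleGraph V where
  Adj x y := x ≠ y ∧ ¬ (comp x = comp y ∧ side x ≠ side y)
  symm := ⟨fun _ _ h => ⟨h.1.symm, fun h2 => h.2 ⟨h2.1.symm, h2.2.symm⟩⟩⟩
  loopless := ⟨fun _ h => h.1 rfl⟩

lemma adj_iff (x y : V) :
    (Gr comp side).Adj x y ↔ x ≠ y ∧ ¬ (comp x = comp y ∧ side x ≠ side y) := Iff.rfl

lemma common (s t : V) (hc : comp s = comp t) (hs : side s ≠ side t) :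
    (Gr comp side).commonNeighbors s t = {w | comp w ≠ comp s} := by
  ext w
  rw [SimpleGraph.mem_commonNeighbors, adj_iff, adj_iff]
  simp only [Set.mem_ofPred_eq]
  constructor
  · rintro ⟨⟨h1, h2⟩, h3, h4⟩ h5
    rcases Bool.eq_or_eq_not (side w) (side s) with h6 | h6
    · apply h4
      refine ⟨by rw [← hc, h5], ?_⟩
      rw [h6]
      exact hs.symm
    · apply h2
      refine ⟨h5.symm, ?_⟩
      rw [h6]
      simp
  · intro h
    refine ⟨⟨?_, ?_⟩, ?_, ?_⟩
    · rintro rfl; exact h rfl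
    · rintro ⟨h1, _⟩; exact h h1.symm
    · rintro rfl; exact h hc.symm
    · rintro ⟨h1, _⟩; exact h (by rw [hc, h1])

lemma adj_of_comp (x y : V) (h : comp x ≠ comp y) : (Gr comp side).Adj x y :=
  ⟨fun h2 => h (by rw [h2]), fun h2 => h h2.1⟩

/-- with at least two components every two vertices are joined -/
lemma connected (i₁ i₂ : ι) (h12 : i₁ ≠ i₂) (h : ∀ i, ∃ x, comp x = i) :
    (Gr comp side).Connected := by
  obtain ⟨x1, hx1⟩ := h i₁
  obtain ⟨x2, hx2⟩ := h i₂
  have : Nonempty V := ⟨x1⟩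
  refine ⟨fun x y => ?_⟩
  by_cases hxy : comp x = comp y
  · obtain ⟨z, hz⟩ : ∃ z, comp z ≠ comp x := by
      by_cases h3 : comp x = i₁
      · exact ⟨x2, by rw [hx2, h3]; exact h12.symm⟩
      · exact ⟨x1, by rw [hx1]; exact fun h4 => h3 h4.symm⟩
    have h4 : (Gr comp side).Adj x z := adj_of_comp comp side x z hz.symm
    have h5 : (Gr comp side).Adj z y := adj_of_comp comp side z y (by rw [← hxy]; exact hz)
    exact h4.reachable.trans h5.reachable
  · exact (adj_of_comp comp side x y hxy).reachable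

lemma through_aux (G : SimpleGraph V) (s t v : V) (hsv : s ≠ v) (htv : t ≠ v)
    (p : G.Walk s t) (h1 : p.length = 1) (h2 : v ∈ p.support) : False := by
  cases p with
  | nil => simp at h1
  | cons h p =>
    cases p with
    | nil =>
      simp only [SimpleGraph.Walk.support_cons, SimpleGraph.Walk.support_nil,
        List.mem_cons, List.not_mem_nil, or_false] at h2
      rcases h2 with h2 | h2
      · exact hsv h2.symm
      · exact htv h2.symm
    | cons h' p => simp at h1

lemma through_adj (s t v : V) (hst : (Gr comp side).Adj s t) (hsv : s ≠ v) (htv : t ≠ v) :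
    sigmaThrough (Gr comp side) s t v = 0 := by
  unfold sigmaThrough
  rw [SimpleGraph.dist_eq_one_iff_adj.2 hst]
  have hem : {p : (Gr comp side).Walk s t | (p.IsPath ∧ p.length = 1) ∧ v ∈ p.support} = ∅ := by
    ext p
    simp only [Set.mem_ofPred_eq, Set.mem_empty_iff_false, iff_false]
    rintro ⟨⟨_, h1⟩, h2⟩
    exact through_aux (Gr comp side) s t v hsv htv p h1 h2
  rw [hem, Set.ncard_empty]

lemma dist_two (s t : V) (hc : comp s = comp t) (hs : side s ≠ side t)
    (z : V) (hz : comp z ≠ comp s) : (Gr comp side).dist s t = 2 := by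
  have h4 : (Gr comp side).Adj s z := adj_of_comp comp side s z hz.symm
  have h5 : (Gr comp side).Adj z t := adj_of_comp comp side z t (by rw [← hc]; exact hz)
  have hne : s ≠ t := fun h => hs (by rw [h])
  have hr : (Gr comp side).Reachable s t := h4.reachable.trans h5.reachable
  have hna : ¬ (Gr comp side).Adj s t := fun h => h.2 ⟨hc, hs⟩
  have h6 := hr.one_lt_dist_of_ne_of_not_adj hne hna
  have h7 : (Gr comp side).dist s t ≤ 2 :=
    SimpleGraph.dist_le (SimpleGraph.Walk.cons h4 (SimpleGraph.Walk.cons h5 SimpleGraph.Walk.nil))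
  omega

lemma walk_two {G : SimpleGraph V} (s t : V) (p : G.Walk s t) (hp : p.length = 2) :
    ∃ (w : V) (h1 : G.Adj s w) (h2 : G.Adj w t),
      p = SimpleGraph.Walk.cons h1 (SimpleGraph.Walk.cons h2 SimpleGraph.Walk.nil) := by
  cases p with
  | nil => simp at hp
  | cons h p =>
    cases p with
    | nil => simp at hp
    | cons h' p =>
      cases p with
      | nil => exact ⟨_, h, h', rfl⟩
      | cons h'' p => simp at hp

lemma sigma_two [Fintype V] [DecidableEq ι] (s t : V) (hc : comp s = comp t)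
    (hs : side s ≠ side t) (z : V) (hz : comp z ≠ comp s) :
    sigma (Gr comp side) s t = (univ.filter (fun w => comp w ≠ comp s)).card := by
  classical
  unfold sigma
  rw [dist_two comp side s t hc hs z hz]
  have hne : s ≠ t := fun h => hs (by rw [h])
  rw [← Set.ncard_coe_finset]
  symm
  refine Set.ncard_congr (fun w hw => SimpleGraph.Walk.cons
    (adj_of_comp comp side s w (by simp at hw; exact fun h => hw h.symm))
    (SimpleGraph.Walk.cons
      (adj_of_comp comp side w t (by simp at hw; rw [← hc]; exact hw))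
      SimpleGraph.Walk.nil)) ?_ ?_ ?_
  · intro w hw
    simp only [coe_filter, mem_univ, true_and, Set.mem_ofPred_eq] at hw
    simp only [Set.mem_ofPred_eq]
    refine ⟨?_, by simp⟩
    apply SimpleGraph.Walk.isPath_of_length_eq_dist
    rw [dist_two comp side s t hc hs z hz]
    simp
  · intro w w' hw hw' h
    simpa using (SimpleGraph.Walk.cons.inj h).1
  · rintro p ⟨_, hp2⟩
    obtain ⟨w, h1, h2, rfl⟩ := walk_two s t p hp2
    have h3 : w ∈ (Gr comp side).commonNeighbors s t := by
      rw [SimpleGraph.mem_commonNeighbors]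
      exact ⟨h1, h2.symm⟩
    rw [common comp side s t hc hs] at h3
    exact ⟨w, by simpa using h3, rfl⟩

lemma through_two [Fintype V] [DecidableEq ι] (s t v : V) (hc : comp s = comp t)
    (hs : side s ≠ side t) (z : V) (hz : comp z ≠ comp s) (hsv : s ≠ v) (htv : t ≠ v) :
    sigmaThrough (Gr comp side) s t v = if comp v ≠ comp s then 1 else 0 := by
  classical
  unfold sigmaThrough
  rw [dist_two comp side s t hc hs z hz]
  have hmem : ∀ p : (Gr comp side).Walk s t, p.length = 2 → v ∈ p.support →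
      comp v ≠ comp s ∧ ∀ (h1 : (Gr comp side).Adj s v) (h2 : (Gr comp side).Adj v t),
        p = SimpleGraph.Walk.cons h1 (SimpleGraph.Walk.cons h2 SimpleGraph.Walk.nil) := by
    intro p hp hv
    obtain ⟨w, h1, h2, rfl⟩ := walk_two s t p hp
    simp only [SimpleGraph.Walk.support_cons, SimpleGraph.Walk.support_nil,
      List.mem_cons, List.not_mem_nil, or_false] at hv
    have hvw : v = w := by
      rcases hv with h | h | h
      · exact absurd h.symm hsv
      · exact h
      · exact absurd h.symm htv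
    subst hvw
    have h3 : v ∈ (Gr comp side).commonNeighbors s t := by
      rw [SimpleGraph.mem_commonNeighbors]
      exact ⟨h1, h2.symm⟩
    rw [common comp side s t hc hs] at h3
    exact ⟨h3, fun _ _ => rfl⟩
  by_cases hv : comp v ≠ comp s
  · rw [if_pos hv]
    have h1 : (Gr comp side).Adj s v := adj_of_comp comp side s v (fun h => hv h.symm)
    have h2 : (Gr comp side).Adj v t := adj_of_comp comp side v t (by rw [← hc]; exact hv)
    rw [Set.ncard_eq_one]
    refine ⟨SimpleGraph.Walk.cons h1 (SimpleGraph.Walk.cons h2 SimpleGraph.Walk.nil), ?_⟩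
    ext p
    simp only [Set.mem_ofPred_eq, Set.mem_singleton_iff]
    constructor
    · rintro ⟨⟨_, h3⟩, h4⟩
      exact (hmem p h3 h4).2 h1 h2
    · rintro rfl
      refine ⟨⟨?_, by simp⟩, by simp⟩
      apply SimpleGraph.Walk.isPath_of_length_eq_dist
      rw [dist_two comp side s t hc hs z hz]
      simp
  · rw [if_neg hv]
    have hem : {p : (Gr comp side).Walk s t | (p.IsPath ∧ p.length = 2) ∧ v ∈ p.support} = ∅ := by
      ext p
      simp only [Set.mem_ofPred_eq, Set.mem_empty_iff_false, iff_false]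
      rintro ⟨⟨_, h3⟩, h4⟩
      exact hv (hmem p h3 h4).1
    rw [hem, Set.ncard_empty]

open Classical in
/-- one summand of the betweenness -/
lemma term_eq [Fintype V] [DecidableEq ι] (v s t : V) (i₁ i₂ : ι) (h12 : i₁ ≠ i₂)
    (h : ∀ i, ∃ x, comp x = i) :
    (if s ≠ t ∧ s ≠ v ∧ t ≠ v then
      (sigmaThrough (Gr comp side) s t v : ℝ) / (sigma (Gr comp side) s t : ℝ) else 0) =
    if comp s ≠ comp v ∧ comp t = comp s ∧ side s ≠ side t then
      (1 : ℝ) / ((univ.filter (fun w => comp w ≠ comp s)).card : ℝ) else 0 := by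
  classical
  by_cases hH : comp t = comp s ∧ side s ≠ side t
  · obtain ⟨hc, hs⟩ := hH
    obtain ⟨x1, hx1⟩ := h i₁
    obtain ⟨x2, hx2⟩ := h i₂
    obtain ⟨z, hz⟩ : ∃ z, comp z ≠ comp s := by
      by_cases h3 : comp s = i₁
      · exact ⟨x2, by rw [hx2, h3]; exact h12.symm⟩
      · exact ⟨x1, by rw [hx1]; exact fun h4 => h3 h4.symm⟩
    have hst : s ≠ t := fun h => hs (by rw [h])
    by_cases hv : comp s ≠ comp v
    · have hsv : s ≠ v := fun h => hv (by rw [h])
      have htv : t ≠ v := fun h => hv (by rw [← hc, h])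
      rw [if_pos ⟨hst, hsv, htv⟩, if_pos ⟨hv, hc, hs⟩,
        sigma_two comp side s t hc.symm hs z hz,
        through_two comp side s t v hc.symm hs z hz hsv htv, if_pos (fun h => hv h.symm)]
      simp
    · push Not at hv
      split_ifs with h5 h6 h6
      · exact absurd hv h6.1
      · rw [through_two comp side s t v hc.symm hs z hz h5.2.1 h5.2.2,
          if_neg (fun h => h hv.symm)]
        simp
      · exact absurd hv h6.1
      · rfl
  · split_ifs with h5 h6 h6
    · exact absurd h6.2 hH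
    · have hadj : (Gr comp side).Adj s t := ⟨h5.1, fun h => hH ⟨h.1.symm, h.2⟩⟩
      rw [through_adj comp side s t v hadj h5.2.1 h5.2.2]
      simp
    · exact absurd h6.2 hH
    · rfl

end general

section blocks

variable {ι : Type} [Fintype ι] [DecidableEq ι] (P Q : ι → ℕ)

/-- vertices of the disjoint union of the graphs `K_{P i, Q i}` -/
abbrev Vt : Type := Σ i : ι, (Fin (P i) ⊕ Fin (Q i))

/-- the graph -/
abbrev Gb : SimpleGraph (Vt P Q) := Gr (fun x => x.1) (fun x => x.2.isLeft)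

lemma card_other (i : ι) (n : ℕ) (hn : ∑ j, (P j + Q j) = n) :
    ((univ.filter (fun w : Vt P Q => w.1 ≠ i)).card : ℝ) = (n : ℝ) - (P i + Q i) := by
  classical
  have h1 : (univ.filter (fun w : Vt P Q => w.1 ≠ i)).card +
      (univ.filter (fun w : Vt P Q => w.1 = i)).card = n := by
    rw [← hn]
    have h2 := Finset.card_filter_add_card_filter_not (s := (univ : Finset (Vt P Q)))
      (fun w => w.1 = i)
    have h3 : (univ : Finset (Vt P Q)).card = ∑ j, (P j + Q j) := by
      simp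
    rw [h3] at h2
    rw [← h2, add_comm]
  have h2 : (univ.filter (fun w : Vt P Q => w.1 = i)).card = P i + Q i := by
    rw [Finset.card_filter, Fintype.sum_sigma]
    rw [Finset.sum_eq_single i]
    · simp
    · intro j _ hj
      simp [hj]
    · simp
  have h3 : ((univ.filter (fun w : Vt P Q => w.1 ≠ i)).card : ℝ) +
      ((P i : ℝ) + Q i) = n := by
    rw [h2] at h1
    exact_mod_cast h1
  linarith

lemma betw (v : Vt P Q) (n : ℕ) (hn : ∑ j, (P j + Q j) = n) (i₁ i₂ : ι) (h12 : i₁ ≠ i₂)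
    (hP : ∀ i, 0 < P i) :
    betweenness (Gb P Q) v =
      ∑ i, if i ≠ v.1 then ((P i : ℝ) * Q i) / ((n : ℝ) - (P i + Q i)) else 0 := by
  classical
  unfold betweenness
  have h : ∀ i : ι, ∃ x : Vt P Q, x.1 = i := fun i => ⟨⟨i, Sum.inl ⟨0, hP i⟩⟩, rfl⟩
  trans (1 / 2) * ∑ s : Vt P Q, ∑ t : Vt P Q,
      if s.1 ≠ v.1 ∧ t.1 = s.1 ∧ s.2.isLeft ≠ t.2.isLeft then
        (1 : ℝ) / ((n : ℝ) - (P s.1 + Q s.1)) else 0
  · congr 1
    refine Finset.sum_congr rfl fun s _ => Finset.sum_congr rfl fun t _ => ?_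
    refine (term_eq (fun x : Vt P Q => x.1) (fun x => x.2.isLeft) v s t i₁ i₂ h12 h).trans ?_
    rw [card_other P Q s.1 n hn]
  rw [Fintype.sum_sigma]
  rw [Finset.mul_sum]
  refine Finset.sum_congr rfl fun i _ => ?_
  have h2 : ∀ x : Fin (P i) ⊕ Fin (Q i), (∑ t : Vt P Q,
      if i ≠ v.1 ∧ t.1 = i ∧ x.isLeft ≠ t.2.isLeft then
        (1 : ℝ) / ((n : ℝ) - (P i + Q i)) else 0) =
      if i ≠ v.1 then (if x.isLeft then (Q i : ℝ) else P i) / ((n : ℝ) - (P i + Q i)) else 0 := by
    intro x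
    rw [Fintype.sum_sigma, Finset.sum_eq_single i]
    · rw [Fintype.sum_sum_type]
      by_cases hi : i = v.1
      · simp [hi]
      · rcases x with x | x
        · simp [hi]
          ring
        · simp [hi]
          ring
    · intro j _ hj
      simp [hj]
    · simp
  have h3 : (∑ x : Fin (P i) ⊕ Fin (Q i), ∑ t : Vt P Q,
      if (⟨i, x⟩ : Vt P Q).1 ≠ v.1 ∧ t.1 = (⟨i, x⟩ : Vt P Q).1 ∧
        (⟨i, x⟩ : Vt P Q).2.isLeft ≠ t.2.isLeft then
        (1 : ℝ) / ((n : ℝ) - (P (⟨i, x⟩ : Vt P Q).1 + Q (⟨i, x⟩ : Vt P Q).1)) else 0) =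
      ∑ x : Fin (P i) ⊕ Fin (Q i),
        if i ≠ v.1 then (if x.isLeft then (Q i : ℝ) else P i) / ((n : ℝ) - (P i + Q i)) else 0 :=
    Finset.sum_congr rfl fun x _ => h2 x
  rw [h3, Fintype.sum_sum_type]
  by_cases hi : i = v.1
  · simp [hi]
  · simp [hi]
    ring

end blocks

theorem exists_graph (q : ℚ) (hq : 1 < q) :
    ∃ (V : Type) (_ : Fintype V) (G : SimpleGraph V),
      G.Connected ∧ ∀ v : V, betweenness G v = (q : ℝ) := by
  classical
  obtain ⟨r, s, hs, hrs, hqe⟩ : ∃ r s : ℕ, 1 ≤ s ∧ s < r ∧ (q : ℝ) = (r : ℝ) / s := by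
    have h0 : 0 < q := by linarith
    refine ⟨q.num.toNat, q.den, q.pos, ?_, ?_⟩
    · have h1 : 0 < q.num := Rat.num_pos.2 h0
      have h2 : (q.den : ℤ) < q.num := by
        have h3 := Rat.num_div_den q
        have h4 : (0 : ℚ) < q.den := by exact_mod_cast q.pos
        rw [← h3, lt_div_iff₀ h4] at hq
        have : ((q.den : ℤ) : ℚ) < (q.num : ℚ) := by push_cast; linarith
        exact_mod_cast this
      omega
    · have h1 : 0 < q.num := Rat.num_pos.2 h0
      have h3 : ((q.num.toNat : ℕ) : ℤ) = q.num := Int.toNat_of_nonneg h1.le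
      have h5 : ((q.num.toNat : ℕ) : ℝ) = ((q.num : ℤ) : ℝ) := by exact_mod_cast congrArg (Int.cast : ℤ → ℝ) h3
      rw [h5]
      exact Rat.cast_def q
  -- parameters
  obtain ⟨X, hX⟩ : ∃ X : ℕ, X = 2 * r + 1 := ⟨_, rfl⟩
  have hX1 : 1 ≤ X := by omega
  have hsX : 2 * r < s ^ 2 * X := by
    have : 1 ≤ s ^ 2 := Nat.one_le_pow _ _ hs
    nlinarith
  obtain ⟨d, hd⟩ : ∃ d : ℕ, r = s + d + 1 := ⟨r - s - 1, by omega⟩
  obtain ⟨m, hm⟩ : ∃ m : ℕ, s ^ 2 * X = 2 * r + m + 1 := ⟨s ^ 2 * X - 2 * r - 1, by omega⟩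
  obtain ⟨k, hk⟩ : ∃ k : ℕ, k = s * X ^ 2 * (d + 1) + 1 := ⟨_, rfl⟩
  obtain ⟨k', hk'⟩ : ∃ k' : ℕ, k' = X * (m + 1) := ⟨_, rfl⟩
  have hkpos : 1 ≤ k := by omega
  have hk'pos : 1 ≤ k' := by rw [hk']; exact Nat.mul_pos hX1 (Nat.succ_pos m)
  obtain ⟨b, hb⟩ : ∃ b : ℕ, s ^ 2 * X ^ 2 = b + 1 := by
    have : 1 ≤ s ^ 2 * X ^ 2 := Nat.mul_pos (Nat.pow_pos hs) (Nat.pow_pos hX1)
    exact ⟨s ^ 2 * X ^ 2 - 1, by omega⟩
  have hsR : (0 : ℝ) < s := by exact_mod_cast hs
  have hXR : (0 : ℝ) < X := by exact_mod_cast hX1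
  have hdR : (r : ℝ) = s + d + 1 := by exact_mod_cast hd
  have hmR : (s : ℝ) ^ 2 * X = 2 * r + m + 1 := by exact_mod_cast hm
  have hkR : (k : ℝ) = s * X ^ 2 * (r - s) + 1 := by
    rw [hk, hdR]; push_cast; ring
  have hk'R : (k' : ℝ) = s ^ 2 * X ^ 2 - 2 * r * X := by
    rw [hk']; push_cast
    have : (m : ℝ) + 1 = (s : ℝ) ^ 2 * X - 2 * r := by linarith
    rw [this]; ring
  have hbR : (b : ℝ) = s ^ 2 * X ^ 2 - 1 := by
    have : (s : ℝ) ^ 2 * X ^ 2 = b + 1 := by exact_mod_cast hb
    linarith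
  -- the blocks
  obtain ⟨P, hP⟩ : ∃ P : Fin k ⊕ Fin k' → ℕ, P = Sum.elim (fun _ => s * X) (fun _ => 1) :=
    ⟨_, rfl⟩
  obtain ⟨Q, hQ⟩ : ∃ Q : Fin k ⊕ Fin k' → ℕ, Q = Sum.elim (fun _ => s * X) (fun _ => b) :=
    ⟨_, rfl⟩
  obtain ⟨n, hn⟩ : ∃ n : ℕ, ∑ j, (P j + Q j) = n := ⟨_, rfl⟩
  have hnR : (n : ℝ) = k * (2 * (s * X)) + k' * (s ^ 2 * X ^ 2) := by
    rw [← hn, hP, hQ, Fintype.sum_sum_type]
    simp only [Sum.elim_inl, Sum.elim_inr, sum_const, card_univ, Fintype.card_fin, smul_eq_mul]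
    push_cast
    rw [hbR]
    ring
  have hP0 : ∀ i, 0 < P i := by
    intro i
    rw [hP]
    rcases i with i | i
    · simp only [Sum.elim_inl]; positivity
    · simp
  have i₁ : Fin k := ⟨0, hkpos⟩
  have i₂ : Fin k' := ⟨0, hk'pos⟩
  refine ⟨Vt P Q, inferInstance, Gb P Q, ?_, ?_⟩
  · exact connected _ _ (Sum.inl i₁) (Sum.inr i₂) (by simp)
      (fun i => ⟨⟨i, Sum.inl ⟨0, hP0 i⟩⟩, rfl⟩)
  · intro v
    rw [betw P Q v n hn (Sum.inl i₁) (Sum.inr i₂) (by simp) hP0]
    have hM : ((k : ℝ) + k' - 1) = r * X * (s * X - 2) := by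
      rw [hkR, hk'R]; ring
    have hsX2 : (0 : ℝ) < s * X - 2 := by
      have h1 : (2 * r + m + 1 : ℝ) = s * (s * X) := by rw [← hmR]; ring
      have h2 : (s : ℝ) * (s * X) > 2 * s := by
        rw [← h1, hdR]
        have : (0 : ℝ) ≤ m := by positivity
        have : (0 : ℝ) ≤ d := by positivity
        linarith
      have h3 : (s : ℝ) * (s * X) > s * 2 := by linarith
      have := lt_of_mul_lt_mul_left h3 hsR.le
      linarith
    have hrR : (0 : ℝ) < r := by rw [hdR]; positivity
    have hsX1 : (1 : ℝ) < s ^ 2 * X ^ 2 := by nlinarith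
    have hterm : ∀ i, ((P i : ℝ) * Q i) / ((n : ℝ) - (P i + Q i)) =
        (r / s) / (r * X * (s * X - 2)) := by
      intro i
      rcases i with i | i
      · rw [hP, hQ]
        simp only [Sum.elim_inl]
        push_cast
        have h1 : (n : ℝ) - (s * X + s * X) = s ^ 3 * X ^ 3 * (s * X - 2) := by
          rw [hnR, hkR, hk'R]; ring
        rw [h1]
        field_simp
      · rw [hP, hQ]
        simp only [Sum.elim_inr]
        push_cast
        have h1 : (n : ℝ) - (1 + b) = s * X * (s * X - 2) * (s ^ 2 * X ^ 2 - 1) := by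
          rw [hnR, hkR, hk'R, hbR]; ring
        rw [h1, hbR]
        have h2 : (s : ℝ) ^ 2 * X ^ 2 - 1 ≠ 0 := by linarith
        field_simp
    have h5 : (∑ i, if i ≠ v.1 then ((P i : ℝ) * Q i) / ((n : ℝ) - (P i + Q i)) else 0) =
        ∑ i, if i ≠ v.1 then (r / s : ℝ) / (r * X * (s * X - 2)) else 0 := by
      refine Finset.sum_congr rfl fun i _ => ?_
      rw [hterm i]
    rw [h5, ← Finset.sum_filter, Finset.sum_const]
    have h6 : (univ.filter (fun i : Fin k ⊕ Fin k' => i ≠ v.1)).card = k + k' - 1 := by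
      rw [Finset.filter_ne' univ v.1, Finset.card_erase_of_mem (mem_univ _)]
      simp
    rw [h6, nsmul_eq_mul]
    have h7 : ((k + k' - 1 : ℕ) : ℝ) = r * X * (s * X - 2) := by
      rw [← hM, Nat.cast_sub (by omega)]
      push_cast
      ring
    rw [h7, hqe]
    have h8 : (s : ℝ) * X - 2 ≠ 0 := hsX2.ne'
    have h9 : (X : ℝ) * s - 2 ≠ 0 := by rw [mul_comm]; exact h8
    field_simp

/-- The betweenness values above one of betweenness-uniform graphs are exactly the rational
numbers above one; no rational number above one is missed. -/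
theorem result :
    attained = {α : ℝ | 1 < α ∧ ∃ q : ℚ, (q : ℝ) = α} ∧
    {q : ℚ | 1 < q ∧ (q : ℝ) ∉ attained} = ∅ := by
  have h1 : attained = {α : ℝ | 1 < α ∧ ∃ q : ℚ, (q : ℝ) = α} := by
    ext α
    constructor
    · rintro ⟨h1, V, hV, G, hG, h2⟩
      refine ⟨h1, ?_⟩
      obtain ⟨v⟩ := hG.nonempty
      obtain ⟨q, hq⟩ := rational G v
      exact ⟨q, by rw [hq, h2 v]⟩
    · rintro ⟨h1, q, rfl⟩
      have h2 : 1 < q := by exact_mod_cast h1
      obtain ⟨V, hV, G, hG, h3⟩ := exists_graph q h2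
      exact ⟨h1, V, hV, G, hG, h3⟩
  refine ⟨h1, ?_⟩
  ext q
  simp only [Set.mem_ofPred_eq, Set.mem_empty_iff_false, iff_false, not_and, not_not]
  intro h2
  rw [h1]
  exact ⟨by exact_mod_cast h2, q, rfl⟩

end Pool.Agent.Results.MP_8f6c4c_co.AllRationals
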